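import Pool.Agent.K1H32.TD.Stm

/-!
# Multiplication operators on `L²` of the circle
-/

open Filter Topology MeasureTheory
open scoped InnerProductSpace ENNReal

namespace Pool.Agent.K1H85.TD

open Pool.Agent.K1H32.TD

/-- the normalised Haar measure -/
noncomputable abbrev hm : Measure Tc := AddCircle.haarAddCircle

/-- `L²` of the circle -/
noncomputable abbrev HL : Type := Lp ℂ 2 hm

theorem memLp_mul {f : Tc → ℂ} (hf : BM f) (v : HL) : MemLp (fun x => f x * v x) 2 hm := by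
  obtain ⟨hm, C, hC⟩ := hf
  refine MemLp.of_le_mul (c := C) (Lp.memLp v) ?_ ?_
  · exact hm.aestronglyMeasurable.mul (Lp.aestronglyMeasurable v)
  · refine Eventually.of_forall fun x => ?_
    rw [norm_mul]
    exact mul_le_mul_of_nonneg_right (hC x) (norm_nonneg _)

/-- multiplication as a linear map -/
noncomputable def mulLin (f : Tc → ℂ) (hf : BM f) : HL →ₗ[ℂ] HL where
  toFun v := (memLp_mul hf v).toLp _
  map_add' v w := by
    rw [← MemLp.toLp_add]
    apply MemLp.toLp_congr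
    filter_upwards [Lp.coeFn_add v w] with x hx
    simp only [hx, Pi.add_apply, mul_add]
  map_smul' c v := by
    rw [RingHom.id_apply, ← MemLp.toLp_const_smul]
    apply MemLp.toLp_congr
    filter_upwards [Lp.coeFn_smul c v] with x hx
    simp only [hx, Pi.smul_apply, smul_eq_mul]
    ring

theorem mulLin_coe (f : Tc → ℂ) (hf : BM f) (v : HL) :
    (mulLin f hf v : Tc → ℂ) =ᵐ[hm] fun x => f x * v x :=
  MemLp.coeFn_toLp (memLp_mul hf v)

theorem mulLin_bound (f : Tc → ℂ) (hf : BM f) {C : ℝ} (hC : ∀ x, ‖f x‖ ≤ C) (v : HL) :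
    ‖mulLin f hf v‖ ≤ C * ‖v‖ := by
  apply Lp.norm_le_mul_norm_of_ae_le_mul
  filter_upwards [mulLin_coe f hf v] with x hx
  rw [hx, norm_mul]
  exact mul_le_mul_of_nonneg_right (hC x) (norm_nonneg _)

open Classical in
/-- multiplication by `f` (zero if `f` is not bounded measurable) -/
noncomputable def Mu (f : Tc → ℂ) : HL →L[ℂ] HL :=
  if h : BM f then (mulLin f h).mkContinuous h.2.choose (mulLin_bound f h h.2.choose_spec) else 0

theorem Mu_apply {f : Tc → ℂ} (h : BM f) (v : HL) : Mu f v = mulLin f h v := by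
  rw [Mu, dif_pos h, LinearMap.mkContinuous_apply]

theorem Mu_coe {f : Tc → ℂ} (h : BM f) (v : HL) :
    (Mu f v : Tc → ℂ) =ᵐ[hm] fun x => f x * v x := by
  rw [Mu_apply h]
  exact mulLin_coe f h v

theorem BM.mul {f g : Tc → ℂ} (hf : BM f) (hg : BM g) : BM (fun x => f x * g x) := by
  obtain ⟨hf1, C, hC⟩ := hf
  obtain ⟨hg1, D, hD⟩ := hg
  refine ⟨hf1.mul hg1, C * D, fun x => ?_⟩
  rw [norm_mul]
  exact mul_le_mul (hC x) (hD x) (norm_nonneg _) ((norm_nonneg _).trans (hC x))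

theorem BM.add {f g : Tc → ℂ} (hf : BM f) (hg : BM g) : BM (fun x => f x + g x) := by
  obtain ⟨hf1, C, hC⟩ := hf
  obtain ⟨hg1, D, hD⟩ := hg
  exact ⟨hf1.add hg1, C + D, fun x => (norm_add_le _ _).trans (add_le_add (hC x) (hD x))⟩

theorem BM.cmul {f : Tc → ℂ} (c : ℂ) (hf : BM f) : BM (fun x => c * f x) := by
  obtain ⟨hf1, C, hC⟩ := hf
  refine ⟨hf1.const_mul c, ‖c‖ * C, fun x => ?_⟩
  rw [norm_mul]
  exact mul_le_mul_of_nonneg_left (hC x) (norm_nonneg _)

theorem BM.star {f : Tc → ℂ} (hf : BM f) : BM (fun x => star (f x)) := by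
  obtain ⟨hf1, C, hC⟩ := hf
  refine ⟨?_, C, fun x => ?_⟩
  · exact Complex.continuous_conj.measurable.comp hf1
  · rw [norm_star]
    exact hC x

theorem BM.const (c : ℂ) : BM (fun _ => c) := ⟨measurable_const, ‖c‖, fun _ => le_rfl⟩

theorem BM.fourier (l : ℤ) : BM (fun x => fourier (T := 2 * Real.pi) l x) := by
  refine ⟨(_root_.fourier l).continuous.measurable, 1, fun x => ?_⟩
  show ‖(_root_.fourier l : C(AddCircle (2 * Real.pi), ℂ)) x‖ ≤ 1
  rw [fourier_apply]
  exact (Circle.norm_coe _).le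

theorem Mu_mul (f g : Tc → ℂ) (hf : BM f) (hg : BM g) :
    Mu (fun x => f x * g x) = Mu f * Mu g := by
  refine ContinuousLinearMap.ext fun v => Lp.ext ?_
  rw [mul_apply_eq_comp]
  filter_upwards [Mu_coe (BM.mul hf hg) v, Mu_coe hf (Mu g v), Mu_coe hg v] with x h1 h2 h3
  rw [h1, h2, h3, mul_assoc]

theorem Mu_one : Mu (fun _ => 1) = 1 := by
  refine ContinuousLinearMap.ext fun v => Lp.ext ?_
  filter_upwards [Mu_coe (BM.const 1) v] with x h1
  rw [h1, one_mul]
  rfl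

theorem Mu_add (f g : Tc → ℂ) (hf : BM f) (hg : BM g) :
    Mu (fun x => f x + g x) = Mu f + Mu g := by
  refine ContinuousLinearMap.ext fun v => Lp.ext ?_
  rw [add_apply]
  filter_upwards [Mu_coe (BM.add hf hg) v, Mu_coe hf v, Mu_coe hg v,
    Lp.coeFn_add (Mu f v) (Mu g v)] with x h1 h2 h3 h4
  rw [h1, h4, Pi.add_apply, h2, h3, add_mul]

theorem Mu_smul (c : ℂ) (f : Tc → ℂ) (hf : BM f) :
    Mu (fun x => c * f x) = c • Mu f := by
  refine ContinuousLinearMap.ext fun v => Lp.ext ?_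
  rw [smul_apply]
  filter_upwards [Mu_coe (BM.cmul c hf) v, Mu_coe hf v, Lp.coeFn_smul c (Mu f v)] with x h1 h2 h3
  rw [h1, h3, Pi.smul_apply, h2, smul_eq_mul, mul_assoc]

theorem Mu_adj (f : Tc → ℂ) (hf : BM f) :
    Mu (fun x => star (f x)) = star (Mu f) := by
  rw [ContinuousLinearMap.star_eq_adjoint]
  rw [ContinuousLinearMap.eq_adjoint_iff]
  intro v w
  rw [L2.inner_def, L2.inner_def]
  apply integral_congr_ae
  filter_upwards [Mu_coe (BM.star hf) v, Mu_coe hf w] with x h1 h2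
  rw [h1, h2]
  simp only [RCLike.inner_apply, Complex.star_def, map_mul, Complex.conj_conj]
  ring

theorem Mu_norm (f : Tc → ℂ) (C : ℝ) (hf : BM f) (hC : ∀ x, ‖f x‖ ≤ C) : ‖Mu f‖ ≤ C := by
  have hC0 : 0 ≤ C := (norm_nonneg _).trans (hC 0)
  refine ContinuousLinearMap.opNorm_le_bound _ hC0 fun v => ?_
  rw [Mu_apply hf]
  exact mulLin_bound f hf hC v

theorem Mu_entry (f : Tc → ℂ) (hf : BM f) (j k : ℤ) :
    ⟪fourierBasis (T := 2 * Real.pi) j, Mu f (fourierBasis (T := 2 * Real.pi) k)⟫_ℂ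
      = fourierCoeff f (j - k) := by
  rw [coe_fourierBasis]
  rw [L2.inner_def, fourierCoeff]
  apply integral_congr_ae
  filter_upwards [Mu_coe hf (fourierLp 2 k), coeFn_fourierLp (T := 2 * Real.pi) 2 j,
    coeFn_fourierLp (T := 2 * Real.pi) 2 k] with x h1 h2 h3
  rw [h1, h2, h3]
  simp only [RCLike.inner_apply, smul_eq_mul]
  rw [neg_sub, sub_eq_add_neg, fourier_add, fourier_neg]
  ring

theorem Mu_shift (l k : ℤ) :
    Mu (fun x => fourier l x) (fourierBasis (T := 2 * Real.pi) k)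
      = fourierBasis (T := 2 * Real.pi) (l + k) := by
  rw [coe_fourierBasis]
  refine Lp.ext ?_
  filter_upwards [Mu_coe (BM.fourier l) (fourierLp 2 k),
    coeFn_fourierLp (T := 2 * Real.pi) 2 (l + k),
    coeFn_fourierLp (T := 2 * Real.pi) 2 k] with x h1 h2 h3
  rw [h1, h2, h3, fourier_add]

theorem Mu_lim (f : ℕ → Tc → ℂ) (g : Tc → ℂ) (hf : ∀ n, BM (f n)) (hg : BM g)
    (C : ℝ) (hC : ∀ n x, ‖f n x‖ ≤ C)
    (hlim : ∀ᵐ x ∂hm, Tendsto (fun n => f n x) atTop (𝓝 (g x))) (v : HL) :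
    Tendsto (fun n => Mu (f n) v) atTop (𝓝 (Mu g v)) := by
  have hC0 : 0 ≤ C := (norm_nonneg _).trans (hC 0 0)
  have hgC : ∀ᵐ x ∂hm, ‖g x‖ ≤ C := by
    filter_upwards [hlim] with x hx
    exact le_of_tendsto hx.norm (Eventually.of_forall fun n => hC n x)
  rw [tendsto_iff_norm_sub_tendsto_zero]
  have hsq : Tendsto (fun n => ‖Mu (f n) v - Mu g v‖ ^ 2) atTop (𝓝 0) := by
    have hform : ∀ n, ‖Mu (f n) v - Mu g v‖ ^ 2 = ∫ x, ‖f n x - g x‖ ^ 2 * ‖v x‖ ^ 2 ∂hm := by
      intro n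
      rw [← @inner_self_eq_norm_sq ℂ, L2.inner_def, ← integral_re]
      · apply integral_congr_ae
        filter_upwards [Lp.coeFn_sub (Mu (f n) v) (Mu g v), Mu_coe (hf n) v, Mu_coe hg v]
          with x h1 h2 h3
        rw [h1, Pi.sub_apply, h2, h3, ← sub_mul, inner_self_eq_norm_sq, norm_mul, mul_pow]
      · exact L2.integrable_inner _ _
    simp only [hform]
    have hv : Integrable (fun x => ‖v x‖ ^ 2) hm := (Lp.memLp v).integrable_norm_pow (by norm_num)
    have h0 : (0 : ℝ) = ∫ x : Tc, (0 : ℝ) ∂hm := by simp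
    rw [h0]
    refine tendsto_integral_of_dominated_convergence (fun x => (2 * C) ^ 2 * ‖v x‖ ^ 2) ?_ ?_ ?_ ?_
    · intro n
      exact ((((hf n).1.sub hg.1).norm.pow_const 2).aestronglyMeasurable).mul hv.1
    · exact hv.const_mul _
    · intro n
      filter_upwards [hgC] with x hx
      rw [Real.norm_of_nonneg (by positivity)]
      refine mul_le_mul_of_nonneg_right ?_ (by positivity)
      refine pow_le_pow_left₀ (norm_nonneg _) ?_ 2
      calc ‖f n x - g x‖ ≤ ‖f n x‖ + ‖g x‖ := norm_sub_le _ _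
        _ ≤ 2 * C := by linarith [hC n x]
    · filter_upwards [hlim] with x hx
      have h1 : Tendsto (fun n => ‖f n x - g x‖) atTop (𝓝 0) :=
        tendsto_iff_norm_sub_tendsto_zero.1 hx
      have h2 := (h1.pow 2).mul_const (‖v x‖ ^ 2)
      simpa using h2
  have h3 := hsq.sqrt
  simpa [Real.sqrt_sq (norm_nonneg _)] using h3

theorem t_mul : Pool.Agent.K1H32.TD.S_MUL :=
  ⟨Mu, { mul := Mu_mul, one := Mu_one, add := Mu_add, smul := Mu_smul, adj := Mu_adj,
         norm := Mu_norm, entry := Mu_entry, shift := Mu_shift, lim := Mu_lim }⟩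

end Pool.Agent.K1H85.TD
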